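import Mathlib
import Pool.Agent.H.MP_ba7837_an.E

namespace Pool.Agent.Results.MP_ba7837_an.Yes

open MeasureTheory Set Filter Topology Pool.Agent.H.MP_ba7837_an

/-- the Borel sets of the line -/
abbrev Bor : MeasurableSpace ℝ := inferInstance

/-- Lebesgue measure -/
noncomputable abbrev leb : @Measure ℝ Bor := volume

/-- invertible measure-preserving transformations of the line -/
abbrev Aut : Type := {e : ℝ ≃ᵐ ℝ // MeasurePreserving (⇑e) leb leb}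

/-- the weak topology -/
@[reducible] noncomputable def weak : TopologicalSpace Aut :=
  (⨅ (A : Set ℝ) (B : Set ℝ) (_ : MeasurableSet A) (_ : MeasurableSet B) (_ : leb A ≠ ⊤)
    (_ : leb B ≠ ⊤),
    TopologicalSpace.induced (fun T : Aut => leb (symmDiff (T.1 '' A) B)) inferInstance) ⊓
  ⨅ (A : Set ℝ) (B : Set ℝ) (_ : MeasurableSet A) (_ : MeasurableSet B) (_ : leb A ≠ ⊤)
    (_ : leb B ≠ ⊤),
    TopologicalSpace.induced (fun T : Aut => leb (symmDiff (T.1 ⁻¹' A) B)) inferInstance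

/-- a nontrivial factor -/
def HasFactor (T : Aut) : Prop :=
  ∃ (F : MeasurableSpace ℝ) (hF : F ≤ Bor),
    (∀ s, MeasurableSet[F] s → ∃ t, MeasurableSet[F] t ∧ T.1 ⁻¹' s =ᵐ[leb] t) ∧
    (∀ s, MeasurableSet[F] s → ∃ t, MeasurableSet[F] t ∧ s =ᵐ[leb] T.1 ⁻¹' t) ∧
    @SigmaFinite ℝ F (@Measure.trim ℝ F Bor leb hF) ∧
    ∃ s, MeasurableSet[Bor] s ∧ ∀ t, MeasurableSet[F] t → ¬ s =ᵐ[leb] t

/-- roots of all orders -/
def HasRoots (T : Aut) : Prop :=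
  ∀ n : ℕ, 2 ≤ n → ∃ S : Aut, (⇑S.1)^[n] =ᵐ[leb] T.1

/-- embedding in a flow -/
def InFlow (T : Aut) : Prop :=
  ∃ φ : ℝ → Aut, Continuous[inferInstance, weak] φ ∧
    (∀ s t, ⇑(φ (s + t)).1 =ᵐ[leb] (φ s).1 ∘ (φ t).1) ∧ ⇑(φ 1).1 =ᵐ[leb] T.1

theorem result : ∃ D : Set Aut, @IsGδ Aut weak D ∧ @Dense Aut weak D ∧
    ∀ T ∈ D, HasFactor T ∧ HasRoots T ∧ InFlow T := by
  obtain ⟨D, h, d1, d2⟩ := mem_residual.1 genI
  refine ⟨D, d1, d2, fun T hT => ?_⟩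
  obtain ⟨φ, f0, f1, f2⟩ := emb (h hT).1
  obtain ⟨S, p, p0, a, b, c⟩ := exS (h hT).1 (h hT).2
  exact ⟨fac p0 a b c, fun n hn => ⟨_, (fl_iter f1 (by omega)).trans f2⟩, φ, f0, f1, f2⟩

end Pool.Agent.Results.MP_ba7837_an.Yes
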